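import Pool.Agent.H3.S2.TgQ
import Pool.Agent.H14.SFG.CRT
import Pool.Agent.H94.SFG.MNZ

/-!
Module CQA (board `s2_modules`): the certificate with coefficients in `k[X]`, the curve may have
nodes and `Q` vanishes at them.
-/

set_option autoImplicit false

namespace Pool.Agent.H13.S2C

open MvPolynomial SC Pool.Agent.H27.LV
open Pool.Agent.H92.SF Pool.Agent.H3.SF Pool.Agent.H17.SD Pool.Agent.H3.S2

/-- at a smooth point of the curve some minor is not zero -/
theorem minor_at {k F σ : Type} [Field k] [CharZero k] [Field F] [Algebra k F] [Fintype σ]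
    (X : σ → F) (r : ℕ) (hc : Fintype.card σ = r + 3)
    (hmin : ∀ (f : Fin (r + 1) → MvPolynomial σ k), (∀ i, aeval X (f i) = 0) →
      ∀ q : Fin (r + 1) → σ,
      aeval X (Matrix.of fun i j => pderiv (q j) (f i)).det = 0)
    (G : MvPolynomial σ k) (s : σ → k)
    (hsX : ∀ f : MvPolynomial σ k, aeval X f = 0 → eval s f = 0) (hG : SmP X G s) :
    ∃ (f : Fin r → MvPolynomial σ k) (q : Fin (r + 1) → σ), (∀ i, aeval X (f i) = 0) ∧
      eval s (Mnr G f q) ≠ 0 := by
  classical
  have hA : ∀ y : Fin 3 → σ → k, (∀ i, ∀ a ∈ {a : σ → k | ∃ f : MvPolynomial σ k,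
      (aeval X f = 0 ∨ f = G) ∧ a = Pool.Agent.H94.SFG.gr s f}, ∑ j, a j * y i j = 0) →
      ¬ LinearIndependent k y := by
    intro y hy
    exact hG y (fun i f hf => hy i _ ⟨f, hf, rfl⟩)
  obtain ⟨v, hv, hli⟩ := Pool.Agent.H94.SFG.many_indep r hc _ hA
  choose f hf hvf using hv
  have hdet : ∀ (g : Fin (r + 1) → MvPolynomial σ k) (q : Fin (r + 1) → σ),
      eval s (Matrix.of fun i j => pderiv (q j) (g i)).det =
        (Matrix.of fun i j => Pool.Agent.H94.SFG.gr s (g i) (q j)).det := by
    intro g q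
    rw [RingHom.map_det]
    rfl
  by_cases hall : ∀ i, aeval X (f i) = 0
  · exfalso
    obtain ⟨q, hq⟩ := Pool.Agent.H94.SFG.minor_ne v hli
    apply hq
    have h1 := hsX _ (hmin f hall q)
    rw [hdet] at h1
    have h2 : (Matrix.of fun i j => v i (q j)) =
        Matrix.of fun i j => Pool.Agent.H94.SFG.gr s (f i) (q j) := by
      ext i j
      rw [Matrix.of_apply, Matrix.of_apply, hvf i]
    rw [h2, h1]
  · push Not at hall
    obtain ⟨i₀, hi₀⟩ := hall
    have hG0 : f i₀ = G := (hf i₀).resolve_left hi₀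
    have hoth : ∀ i, i ≠ i₀ → aeval X (f i) = 0 := by
      intro i hi
      rcases hf i with h | h
      · exact h
      · exfalso
        apply hi
        apply hli.injective
        rw [hvf i, hvf i₀, h, hG0]
    obtain ⟨e, he⟩ : ∃ e : Equiv.Perm (Fin (r + 1)), e = Equiv.swap i₀ (Fin.last r) := ⟨_, rfl⟩
    have hel : e (Fin.last r) = i₀ := by rw [he, Equiv.swap_apply_right]
    have hli' : LinearIndependent k (fun i => v (e i)) := hli.comp _ e.injective
    obtain ⟨q, hq⟩ := Pool.Agent.H94.SFG.minor_ne _ hli'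
    refine ⟨fun i => f (e (Fin.castSucc i)), q, fun i => hoth _ ?_, ?_⟩
    · intro h
      have h1 : Fin.castSucc i = Fin.last r := e.injective (h.trans hel.symm)
      exact (Fin.castSucc_lt_last i).ne h1
    · have hsn : (Fin.snoc (fun i => f (e (Fin.castSucc i))) G :
          Fin (r + 1) → MvPolynomial σ k) = fun i => f (e i) := by
        funext i
        refine Fin.lastCases ?_ (fun j => ?_) i
        · rw [Fin.snoc_last, hel, hG0]
        · rw [Fin.snoc_castSucc]
      unfold Mnr
      rw [hsn, hdet]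
      have h2 : (Matrix.of fun i j => Pool.Agent.H94.SFG.gr s (f (e i)) (q j)) =
          Matrix.of fun i j => v (e i) (q j) := by
        ext i j
        rw [Matrix.of_apply, Matrix.of_apply, hvf (e i)]
      rw [h2]
      exact hq

/-- a form vanishes on the line through its zero -/
theorem eval_smul_hom {k σ : Type} [Field k] [Fintype σ] (Q : MvPolynomial σ k) (d : ℕ)
    (hQ : Q.IsHomogeneous d) (s : σ → k) (hs : eval s Q = 0) (t : k) : eval (t • s) Q = 0 := by
  have h1 : eval (t • s) Q = t ^ d * eval s Q := by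
    rw [eval_eq', eval_eq', Finset.mul_sum]
    refine Finset.sum_congr rfl fun a ha => ?_
    have h2 : ∑ i, a i = d := by
      have h3 := hQ (mem_support_iff.1 ha)
      rw [Finsupp.weight_apply, Finsupp.sum_fintype _ _ (fun _ => by simp)] at h3
      simpa using h3
    have h4 : ∏ i, (t • s) i ^ a i = t ^ d * ∏ i, s i ^ a i := by
      rw [← h2, ← Finset.prod_pow_eq_pow_sum, ← Finset.prod_mul_distrib]
      exact Finset.prod_congr rfl fun i _ => by
        rw [Pi.smul_apply, smul_eq_mul, mul_pow]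
    rw [h4]
    ring
  rw [h1, hs, mul_zero]

theorem pf_CQA (h2 : T_GMX) (hNKD : T_NKD) : T_CQA := by
  classical
  intro k F σ _ _ _ _ _ _ X u dd m G _ hrel hind hul hXi hdd hXe hm hG sQ Q hQ hsm
  -- coefficients
  have hc : ∀ l, ∃ c : σ → k, ∑ s, c s • X s = u l := fun l =>
    (Submodule.mem_span_range_iff_exists_fun k).1 (hul l)
  choose c hcu using hc
  have hcu' : ∀ l, u l = ∑ s, c l s • X s := fun l => (hcu l).symm
  -- the number of the variables
  have hcard : 3 ≤ Fintype.card σ := by
    have hfd : Module.Finite k (Submodule.span k (Set.range X)) :=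
      FiniteDimensional.span_of_finite k (Set.finite_range X)
    have h4 : LinearIndependent k
        (fun l => (⟨u l, hul l⟩ : Submodule.span k (Set.range X))) := by
      refine LinearIndependent.of_comp (Submodule.span k (Set.range X)).subtype ?_
      exact hind.linearIndependent
    have h5 := h4.fintype_card_le_finrank
    have h6 : Set.finrank k (Set.range X) ≤ Fintype.card σ := finrank_range_le_card X
    rw [Fintype.card_fin] at h5
    exact h5.trans h6
  obtain ⟨r, hr⟩ : ∃ r, Fintype.card σ = r + 3 := ⟨Fintype.card σ - 3, by omega⟩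
  obtain ⟨hM1, hM2⟩ := h2 k F σ X u dd c r hr hcu' hdd
  -- values of polynomials
  have hXp : ∀ p : MvPolynomial σ k, aeval X p ∈ PA k X := by
    intro p
    change aeval X p ∈ Algebra.adjoin k (Set.range X)
    rw [Algebra.adjoin_range_eq_range_aeval]
    exact ⟨p, rfl⟩
  have hui : ∀ l, u l ∈ PA k X := by
    intro l
    rw [hcu' l]
    refine Subalgebra.sum_mem _ fun s _ => ?_
    exact (PA k X).smul_mem (Algebra.subset_adjoin ⟨s, rfl⟩) _
  -- the ideal
  obtain ⟨CI, hCI⟩ : ∃ CI : Ideal (MvPolynomial σ k), ∀ p, p ∈ CI ↔ Q * p ∈ JcI X r G :=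
    ⟨Submodule.comap (LinearMap.mulLeft (MvPolynomial σ k) Q) (JcI X r G), fun p => Iff.rfl⟩
  have hJC : ∀ p ∈ JcI X r G, p ∈ CI := fun p hp => (hCI p).2 (Ideal.mul_mem_left _ _ hp)
  have hzero : ∀ s ∈ zeroLocus k CI, s = 0 := by
    intro s hs
    rw [mem_zeroLocus_iff] at hs
    have hs' : ∀ p ∈ CI, eval s p = 0 := by
      intro p hp
      rw [← coe_aeval_eq_eval]
      exact hs p hp
    by_contra hs0
    have hsX : ∀ f : MvPolynomial σ k, aeval X f = 0 → eval s f = 0 := fun f hf =>
      hs' f (hJC f (Ideal.subset_span (Or.inl (Or.inl hf))))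
    have hsG : eval s G = 0 := hs' G (hJC G (Ideal.subset_span (Or.inl (Or.inr rfl))))
    rcases hsm s hs0 hsX hsG with h | ⟨hN, hQ0⟩
    · obtain ⟨f, q, hf, hne⟩ := minor_at X r hr hM1 G s hsX h
      exact hne (hs' _ (hJC _ (Ideal.subset_span (Or.inr ⟨f, q, hf, rfl⟩))))
    · obtain ⟨-, h, hh, hp⟩ := hNKD k F σ X r hr hM1 hrel m G hG s hs0 hsX hsG hN
      apply hh
      apply hs'
      rw [hCI, mul_comm]
      exact hp Q (eval_smul_hom Q sQ hQ s hQ0)
  -- membership
  have hmem : ∀ g ∈ JcI X r G, ∃ e : Fin 3 → F, (∀ l, e l ∈ PA k X) ∧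
      aeval X g = ∑ l, e l * dd l (aeval X G) := by
    intro g hg
    unfold JcI at hg
    induction hg using Submodule.span_induction with
    | mem g hg =>
      rcases hg with (hg | hg) | ⟨f, q, hf, rfl⟩
      · refine ⟨fun _ => 0, fun l => (PA k X).zero_mem, ?_⟩
        have hg' : aeval X g = 0 := hg
        rw [hg']
        simp
      · have hg' : g = G := hg
        rw [hg']
        refine ⟨fun l => algebraMap k F (m : k)⁻¹ * u l,
          fun l => (PA k X).mul_mem ((PA k X).algebraMap_mem _) (hui l), ?_⟩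
        have h4 := Pool.Agent.H14.SFG.euler_val X u dd hXe m G hG
        have hm0 : (m : k) ≠ 0 := by
          have : m ≠ 0 := by omega
          exact_mod_cast this
        have h5 : algebraMap k F (m : k)⁻¹ * (m : F) = 1 := by
          rw [← map_natCast (algebraMap k F) m, ← map_mul, inv_mul_cancel₀ hm0, map_one]
        calc aeval X G = algebraMap k F (m : k)⁻¹ * ((m : F) * aeval X G) := by
              rw [← mul_assoc, h5, one_mul]
          _ = algebraMap k F (m : k)⁻¹ * ∑ l, u l * dd l (aeval X G) := by rw [h4]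
          _ = ∑ l, algebraMap k F (m : k)⁻¹ * u l * dd l (aeval X G) := by
              rw [Finset.mul_sum]
              exact Finset.sum_congr rfl fun l _ => by ring
      · refine ⟨fun l => aeval X (Matrix.of fun i j => pderiv (q j)
          ((Fin.snoc f (∑ s, C (c l s) * MvPolynomial.X s) :
            Fin (r + 1) → MvPolynomial σ k) i)).det, fun l => hXp _, ?_⟩
        unfold Mnr
        rw [hM2 f hf G q]
        exact Finset.sum_congr rfl fun l _ => mul_comm _ _
    | zero =>
      refine ⟨fun _ => 0, fun l => (PA k X).zero_mem, ?_⟩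
      rw [map_zero]
      simp
    | add g g' _ _ ih ih' =>
      obtain ⟨e, he, h4⟩ := ih
      obtain ⟨e', he', h5⟩ := ih'
      refine ⟨fun l => e l + e' l, fun l => (PA k X).add_mem (he l) (he' l), ?_⟩
      rw [map_add, h4, h5, ← Finset.sum_add_distrib]
      exact Finset.sum_congr rfl fun l _ => by ring
    | smul h g _ ih =>
      obtain ⟨e, he, h4⟩ := ih
      refine ⟨fun l => aeval X h * e l, fun l => (PA k X).mul_mem (hXp h) (he l), ?_⟩
      rw [smul_eq_mul, map_mul, h4, Finset.mul_sum]
      exact Finset.sum_congr rfl fun l _ => by ring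
  -- Nullstellensatz
  obtain ⟨U, hU⟩ : ∃ U : Fin 3 → MvPolynomial σ k,
      U = fun l => ∑ s, C (c l s) * MvPolynomial.X s := ⟨_, rfl⟩
  have hUX : ∀ l, aeval X (U l) = u l := by
    intro l
    rw [hU, hcu' l]
    simp only [map_sum, map_mul, aeval_X, algHom_C]
    exact Finset.sum_congr rfl fun s _ => (Algebra.smul_def _ _).symm
  have hrad : ∀ l, U l ∈ CI.radical := by
    intro l
    rw [← vanishingIdeal_zeroLocus_eq_radical (K := k), mem_vanishingIdeal_iff]
    intro s hs
    rw [hzero s hs, hU]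
    simp
  choose N hN using hrad
  refine ⟨∑ l, N l, fun i => ?_⟩
  have h4 : U i ^ (∑ l, N l) ∈ CI :=
    Ideal.pow_mem_of_pow_mem _ (hN i) (Finset.single_le_sum (fun _ _ => Nat.zero_le _)
      (Finset.mem_univ i))
  obtain ⟨e, he, h5⟩ := hmem _ ((hCI _).1 h4)
  refine ⟨e, he, ?_⟩
  rw [← h5, map_mul, map_pow, hUX]

end Pool.Agent.H13.S2C
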