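import Pool.Agent.H84.S2.Tg

/-!
# MP_70ba79_ag, THEOREM S, part 2: module LO2 (the boundary statement)
-/

set_option autoImplicit false

namespace Pool.Agent.H13.S2

open MvPolynomial SC
open Pool.Agent.H27.LV (ge deg poleOrder canDeg)
open Pool.Agent.H84.SM (cr dt dp)
open Pool.Agent.H3.SF (Itg Bb BB Hm eu grd hes Sfc Crd Cnn Crf Prm nv)
open Pool.Agent.H84.SF Pool.Agent.H3.S2 Pool.Agent.H84.S2

theorem pf_LO2 (hLC3 : T_LC3) : Pool.Agent.H3.S2.T_LO2 := by
  refine ⟨8, ?_⟩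
  intro k F σ _ _ _ _ _ _ _ X u dd δ j0 c0 J hS hX m G sg S hm hG hNd α A b hC hSA hlt
  obtain ⟨GP, hGP, hval, hndl⟩ := hNd
  have hY : SYd X u dd J j0 :=
    ⟨hS.ind, hS.du, hS.comm, hX.ulin, hX.Xint, hX.Xeu, hS.Jh, hS.J0, hX.JI,
      fun a l ha => hS.Jd l a ha⟩
  obtain ⟨C, hL⟩ := hLC3 k F σ X u dd J j0 m G GP sg S hY hm hG hGP hval hndl α A b hC hSA
  refine ⟨max α C, ?_⟩
  intro K _ _ _ htr D hD0 φ x g Sp hP hcr b0 hb0 hE
  by_cases hA : aeval x A = 0
  · exact Or.inl ⟨α, A, le_max_left _ _, hC.ne, hC.hA, hA⟩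
  · right
    have hV : VM3 u φ b (map (φ : Bb k u →+* K) b0) := by
      intro a h hh
      rw [coeff_map]
      have h1 : h = b0.coeff a := by
        refine Subtype.ext ?_
        rw [hh, ← hb0, coeff_map]
        rfl
      rw [h1]
      rfl
    have hE' : EqC D x A (map (φ : Bb k u →+* K) b0) := by
      unfold EqC
      rw [eval_map]
      exact hE
    have h2 := hL K htr φ x g Sp hcr hP hA D hD0 _ hV hE'
    have h3 : (deg k x : ℤ) ≤ C * Sp.card := by
      have h4 : (1 : ℤ) ≤ m - (sg + 4 * α + 7 * j0) := by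
        have h5 : ((8 * (α + j0 + sg) : ℕ) : ℤ) < m := by exact_mod_cast hlt
        push_cast at h5
        have h6 : (0 : ℤ) ≤ α := Int.natCast_nonneg _
        have h7 : (0 : ℤ) ≤ j0 := Int.natCast_nonneg _
        have h8 : (0 : ℤ) ≤ sg := Int.natCast_nonneg _
        linarith
      have h6 : (0 : ℤ) ≤ deg k x := Int.natCast_nonneg _
      nlinarith
    have h7 : deg k x ≤ C * Sp.card := by exact_mod_cast h3
    exact h7.trans (Nat.mul_le_mul_right _ (le_max_right _ _))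

end Pool.Agent.H13.S2
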